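import Pool.Agent.H20.RCC.Stmts

/-!
# Board rcc, row LWO
-/

set_option autoImplicit false

namespace Pool.RCC

namespace LWOAux

theorem sub_gt (a d j : ℕ) (hd : d ≤ 8) (hj : j ≤ a / 4 ^ d % 4) (e : ℕ) (h1 : 1 ≤ e)
    (h9 : e ≤ 9) : gt e (a - j * 4 ^ d) = if e = d + 1 then gt e a - j else gt e a := by
  unfold gt
  interval_cases d <;> interval_cases e <;> simp at hj ⊢ <;> omega

theorem mt_sub {a d j : ℕ} {f g : ℕ → ℕ} (hd : d ≤ 8) (hj : j ≤ a / 4 ^ d % 4) (hm : Mt a f)
    (hg : ∀ e, 1 ≤ e → e ≤ 9 → e ≠ d + 1 → g e = f e)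
    (h : a / 4 ^ d % 4 - j = 3 ∨ a / 4 ^ d % 4 - j = min (g (d + 1)) 2) :
    Mt (a - j * 4 ^ d) g := by
  refine ⟨lt_of_le_of_lt (Nat.sub_le _ _) hm.1, ?_⟩
  intro e h1 h9
  rw [sub_gt a d j hd hj e h1 h9]
  by_cases he : e = d + 1
  · rw [if_pos he, he]
    exact h
  · rw [if_neg he, hg e h1 h9 he]
    exact hm.2 e h1 h9

theorem aux (k : ℕ) (hk8 : k ≤ 8) (L : List ℕ) (f : ℕ → ℕ)
    (hL : L.Pairwise (· ≤ ·)) (hl : ∀ l ∈ L, 1 ≤ l ∧ l < k)
    (hf : ∀ d, 1 ≤ d → d < k → f d = L.count d) :
    ∀ (F d a : ℕ), k ≤ d + 1 + F → (∀ e, 1 ≤ e → e ≤ d → e < k → f e = 0) → Mt a f →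
      (∀ (l : ℕ) (L' : List ℕ), L = l :: L' →
        ∃ x ∈ lw k F d a, x.1 = l ∧ Mt x.2 (fun d => f d - if d = l then 1 else 0)) ∧
      (L = [] → ∃ x ∈ lw k F d a, x.1 = k ∧ Mt x.2 f) := by
  -- the head has a positive count
  have hpos : ∀ (l : ℕ) (L' : List ℕ), L = l :: L' → 1 ≤ l ∧ l < k ∧ 1 ≤ f l := by
    intro l L' h
    have hm : l ∈ L := by rw [h]; exact List.mem_cons_self
    obtain ⟨h1, h2⟩ := hl l hm
    refine ⟨h1, h2, ?_⟩
    rw [hf l h1 h2]
    exact List.count_pos_iff.2 hm
  intro F
  induction F with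
  | zero =>
    intro d a hF h0 hm
    rw [lw]
    constructor
    · intro l L' h
      obtain ⟨h1, h2, h3⟩ := hpos l L' h
      have := h0 l h1 (by omega) h2
      omega
    · intro _
      exact ⟨(k, a), List.mem_singleton.2 rfl, rfl, hm⟩
  | succ F ih =>
    intro d a hF h0 hm
    rw [lw]
    by_cases hkd : k ≤ d + 1
    · rw [if_pos hkd]
      constructor
      · intro l L' h
        obtain ⟨h1, h2, h3⟩ := hpos l L' h
        have := h0 l h1 (by omega) h2
        omega
      · intro _
        exact ⟨(k, a), List.mem_singleton.2 rfl, rfl, hm⟩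
    · rw [if_neg hkd]
      have hd1 : d + 1 < k := by omega
      have hcl : a / 4 ^ d % 4 = 3 ∨ a / 4 ^ d % 4 = min (f (d + 1)) 2 := hm.2 (d + 1) (by omega) (by omega)
      -- the least digit
      have hhead : 1 ≤ f (d + 1) → (∀ (l : ℕ) (L' : List ℕ), L = l :: L' → l = d + 1) ∧ L ≠ [] := by
        intro hfd
        have hmem : d + 1 ∈ L := by
          rw [hf (d + 1) (by omega) hd1] at hfd
          exact List.count_pos_iff.1 hfd
        constructor
        · intro l L' h
          obtain ⟨h1, h2, h3⟩ := hpos l L' h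
          have h4 : l ≤ d + 1 := by
            rw [h] at hmem hL
            rcases List.mem_cons.1 hmem with h5 | h5
            · omega
            · exact List.rel_of_pairwise_cons hL h5
          by_contra hne
          have := h0 l h1 (by omega) h2
          omega
        · rintro rfl
          exact List.not_mem_nil hmem
      -- finding the digit
      have hfound : ∀ j : ℕ, 1 ≤ f (d + 1) → j ≤ a / 4 ^ d % 4 →
          (a / 4 ^ d % 4 - j = 3 ∨ a / 4 ^ d % 4 - j = min (f (d + 1) - 1) 2) →
          Mt (a - j * 4 ^ d) (fun e => f e - if e = d + 1 then 1 else 0) := by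
        intro j h1 h2 h3
        apply mt_sub (by omega) h2 hm
        · intro e _ _ he
          simp [he]
        · simpa using h3
      -- the next digit
      have hnext : f (d + 1) = 0 → ∀ a' : ℕ, Mt a' f →
          (∀ (l : ℕ) (L' : List ℕ), L = l :: L' →
            ∃ x ∈ lw k F (d + 1) a', x.1 = l ∧ Mt x.2 (fun d => f d - if d = l then 1 else 0)) ∧
          (L = [] → ∃ x ∈ lw k F (d + 1) a', x.1 = k ∧ Mt x.2 f) := by
        intro hz a' hm'
        apply ih (d + 1) a' (by omega) _ hm'
        intro e h1 h2 h3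
        by_cases he : e = d + 1
        · rw [he]
          exact hz
        · exact h0 e h1 (by omega) h3
      have hlt : a / 4 ^ d % 4 < 4 := Nat.mod_lt _ (by norm_num)
      by_cases c0 : a / 4 ^ d % 4 = 0
      · rw [if_pos c0]
        exact hnext (by omega) a hm
      rw [if_neg c0]
      by_cases c1 : a / 4 ^ d % 4 = 1
      · rw [if_pos c1]
        have hfd : f (d + 1) = 1 := by omega
        obtain ⟨h1, h2⟩ := hhead (by omega)
        refine ⟨?_, fun h => absurd h h2⟩
        intro l L' h
        have h3 := h1 l L' h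
        subst h3
        refine ⟨(d + 1, a - 4 ^ d), List.mem_singleton.2 rfl, rfl, ?_⟩
        have := hfound 1 (by omega) (by omega) (by omega)
        rwa [one_mul] at this
      rw [if_neg c1]
      by_cases c2 : a / 4 ^ d % 4 = 2
      · rw [if_pos c2]
        have hfd : 2 ≤ f (d + 1) := by omega
        obtain ⟨h1, h2⟩ := hhead (by omega)
        refine ⟨?_, fun h => absurd h h2⟩
        intro l L' h
        have h3 := h1 l L' h
        subst h3
        by_cases h4 : f (d + 1) = 2
        · refine ⟨(d + 1, a - 4 ^ d), by simp, rfl, ?_⟩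
          have := hfound 1 (by omega) (by omega) (by omega)
          rwa [one_mul] at this
        · refine ⟨(d + 1, a), by simp, rfl, ?_⟩
          have := hfound 0 (by omega) (by omega) (by omega)
          rwa [zero_mul, Nat.sub_zero] at this
      rw [if_neg c2]
      have c3 : a / 4 ^ d % 4 = 3 := by omega
      by_cases hz : f (d + 1) = 0
      · have hm' : Mt (a - 3 * 4 ^ d) f := by
          apply mt_sub (by omega) (by omega) hm
          · intro e _ _ _
            rfl
          · omega
        obtain ⟨n1, n2⟩ := hnext hz _ hm'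
        constructor
        · intro l L' h
          obtain ⟨x, hx, hx'⟩ := n1 l L' h
          exact ⟨x, List.mem_cons_of_mem _ hx, hx'⟩
        · intro h
          obtain ⟨x, hx, hx'⟩ := n2 h
          exact ⟨x, List.mem_cons_of_mem _ hx, hx'⟩
      · obtain ⟨h1, h2⟩ := hhead (by omega)
        refine ⟨?_, fun h => absurd h h2⟩
        intro l L' h
        have h3 := h1 l L' h
        subst h3
        refine ⟨(d + 1, a), List.mem_cons_self, rfl, ?_⟩
        have := hfound 0 (by omega) (by omega) (by omega)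
        rwa [zero_mul, Nat.sub_zero] at this

end LWOAux

theorem LWO_thm : LWOStmt := by
  intro k a L f _ hk8 hL hl hf hm
  exact LWOAux.aux k hk8 L f hL hl hf 8 0 a (by omega) (by intro e h1 h2; omega) hm

end Pool.RCC
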